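import Pool.Agent.H200C.Stm2

/-! Project CH (helper200), job ALG (helper239): arithmetic of up and lm. -/

set_option autoImplicit false

namespace Pool.Agent.Q239.CH

open Finset Polynomial Pool.Agent.TH176.Nag Pool.Agent.TH603.Sur Pool.Agent.TH2.NU Pool.Agent.TH641.UM
open Pool.Agent.Y205.FW Pool.Agent.Y205.MD Pool.Agent.H200W Pool.Agent.H200P Pool.Agent.H200C

theorem up_cons (w : ℕ) (W : Multiset ℕ) (k : ℕ) :
    up (w ::ₘ W) k = if k < w then (w - k) ::ₘ up W k else up W k := by
  unfold up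
  by_cases h : k < w
  · rw [Multiset.filter_cons_of_pos _ h, if_pos h, Multiset.map_cons]
  · rw [Multiset.filter_cons_of_neg _ h, if_neg h]

theorem up_sum_cons (w : ℕ) (W : Multiset ℕ) (k : ℕ) :
    (up (w ::ₘ W) k).sum = (w - k) + (up W k).sum := by
  rw [up_cons]
  split_ifs with h
  · rw [Multiset.sum_cons]
  · rw [Nat.sub_eq_zero_of_le (not_lt.1 h), zero_add]

theorem sq_cons (w : ℕ) (W : Multiset ℕ) : sq (w ::ₘ W) = (w : ℝ) ^ 2 + sq W := by
  unfold H200C.sq
  rw [Multiset.map_cons, Multiset.sum_cons]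

theorem up_sq_cons (w : ℕ) (W : Multiset ℕ) (k : ℕ) :
    sq (up (w ::ₘ W) k) = ((w - k : ℕ) : ℝ) ^ 2 + sq (up W k) := by
  rw [up_cons]
  split_ifs with h
  · rw [sq_cons]
  · rw [Nat.sub_eq_zero_of_le (not_lt.1 h)]
    simp

theorem up_nil (k : ℕ) : up 0 k = 0 := by simp [up]

theorem sq_nil : H200C.sq (0 : Multiset ℕ) = 0 := by simp [H200C.sq]

theorem up_up' (W : Multiset ℕ) (k l : ℕ) : up (up W k) l = up W (k + l) := by
  unfold up
  rw [Multiset.filter_map, Multiset.filter_filter, Multiset.map_map]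
  have e : Multiset.filter (fun a => ((fun w => l < w) ∘ fun w => w - k) a ∧ k < a) W =
      Multiset.filter (fun w => k + l < w) W := by
    apply Multiset.filter_congr
    intro x _
    simp only [Function.comp_apply]
    omega
  rw [e]
  apply Multiset.map_congr rfl
  intro x _
  simp only [Function.comp_apply]
  omega

theorem up_zero' (W : Multiset ℕ) (m : ℕ) (h : ∀ w ∈ W, w ≤ m) : up W m = 0 := by
  unfold up
  rw [Multiset.filter_eq_nil.2 (fun a ha => not_lt.2 (h a ha))]
  rfl

theorem up_self (W : Multiset ℕ) (h : ∀ w ∈ W, 0 < w) : up W 0 = W := by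
  unfold up
  rw [Multiset.filter_eq_self.2 h]
  simp

theorem sum_succ (W : Multiset ℕ) (k : ℕ) :
    (up W k).sum = (up W (k + 1)).sum + (W.filter fun w => k < w).card := by
  induction W using Multiset.induction_on with
  | empty => simp [up_nil]
  | cons w W ih =>
    rw [up_sum_cons, up_sum_cons, ih]
    by_cases h : k < w
    · rw [Multiset.filter_cons_of_pos (p := fun w => k < w) W h, Multiset.card_cons]
      omega
    · rw [Multiset.filter_cons_of_neg (p := fun w => k < w) W h]
      omega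

theorem sq_succ' (W : Multiset ℕ) (k : ℕ) :
    sq (up W k) - sq (up W (k + 1)) = ((up W k).sum : ℝ) + ((up W (k + 1)).sum : ℝ) := by
  induction W using Multiset.induction_on with
  | empty => simp [up_nil, sq_nil]
  | cons w W ih =>
    rw [up_sum_cons, up_sum_cons, up_sq_cons, up_sq_cons]
    have e : ((w - k : ℕ) : ℝ) ^ 2 - ((w - (k + 1) : ℕ) : ℝ) ^ 2 = ((w - k : ℕ) : ℝ) + ((w - (k + 1) : ℕ) : ℝ) := by
      by_cases h : k < w
      · have h1 : ((w - k : ℕ) : ℝ) = (w : ℝ) - k := by rw [Nat.cast_sub h.le]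
        have h2 : ((w - (k + 1) : ℕ) : ℝ) = (w : ℝ) - (k + 1) := by
          rw [Nat.cast_sub (by omega : k + 1 ≤ w)]; push_cast; ring
        rw [h1, h2]; ring
      · rw [Nat.sub_eq_zero_of_le (not_lt.1 h), Nat.sub_eq_zero_of_le (by omega : w ≤ k + 1)]
        simp
    rw [Nat.cast_add, Nat.cast_add]
    linarith

theorem lm_lo' (b ρ : ℤ) (W : Multiset ℕ) (H : ℕ) (hW : ∀ w ∈ W, 0 < w) :
    lm b ρ W 0 = b - ((hi W H).sum : ℕ) - ((lo W H).sum : ℕ) ∧
    lm b ρ W H = b - ((hi W H).sum : ℕ) - (ρ - ((hi W H).card : ℕ)) * H := by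
  constructor
  · unfold lm
    rw [up_self W hW]
    have : W.sum = (hi W H).sum + (lo W H).sum := by
      unfold hi lo
      rw [← Multiset.sum_add]
      have e : (W.filter fun w => w < H) = W.filter fun w => ¬ H ≤ w := by
        apply Multiset.filter_congr
        intro x _
        omega
      rw [e, Multiset.filter_add_not]
    rw [this, Nat.cast_add]
    push_cast
    ring
  · unfold lm
    have : ((up W H).sum : ℤ) + ((hi W H).card : ℕ) * H = ((hi W H).sum : ℕ) := by
      clear hW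
      induction W using Multiset.induction_on with
      | empty => simp [up_nil, hi]
      | cons w W ih =>
        rw [up_sum_cons]
        unfold hi at ih ⊢
        by_cases h : H ≤ w
        · rw [Multiset.filter_cons_of_pos (p := fun w => H ≤ w) W h, Multiset.card_cons, Multiset.sum_cons,
            Nat.cast_add, Nat.cast_add, Nat.cast_add, Nat.cast_sub h, Nat.cast_one]
          linarith
        · rw [Multiset.filter_cons_of_neg (p := fun w => H ≤ w) W h, Nat.sub_eq_zero_of_le (by omega : w ≤ H),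
            zero_add]
          exact ih
    linarith

theorem F_eq (b ρ : ℤ) (W : Multiset ℕ) (F : ℕ → ℝ) (H : ℕ) (hW : ∀ w ∈ W, 0 < w)
    (hF : ∀ k < H, F k - F (k + 1) = (lm b ρ W k : ℝ) + (lm b ρ W (k + 1) : ℝ)) (l : ℕ) (hl : l ≤ H) :
    F 0 - F l = 2 * (b : ℝ) * l - (ρ : ℝ) * (l : ℝ) ^ 2 - (sq W - sq (up W l)) := by
  induction l with
  | zero => rw [up_self W hW]; simp
  | succ l ih =>
    have h1 := ih (by omega)
    have h2 := hF l (by omega)
    have h3 := sq_succ' W l
    unfold lm at h2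
    rw [Int.cast_sub, Int.cast_sub, Int.cast_sub, Int.cast_sub, Int.cast_mul, Int.cast_mul, Int.cast_natCast,
      Int.cast_natCast, Int.cast_natCast, Int.cast_natCast, Nat.cast_add, Nat.cast_one] at h2
    rw [Nat.cast_add, Nat.cast_one]
    linarith

theorem area' (b ρ : ℤ) (W : Multiset ℕ) (F : ℕ → ℝ) (H : ℕ) (hW : ∀ w ∈ W, 0 < w)
    (hF : ∀ k < H, F k - F (k + 1) = (lm b ρ W k : ℝ) + (lm b ρ W (k + 1) : ℝ)) :
    F 0 - F H = 2 * ((b : ℝ) - (hi W H).sum) * H - ((ρ : ℝ) - (hi W H).card) * (H : ℝ) ^ 2 -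
      sq (lo W H) := by
  rw [F_eq b ρ W F H hW hF H le_rfl]
  have : 2 * ((hi W H).sum : ℝ) * H - ((hi W H).card : ℝ) * (H : ℝ) ^ 2 + sq (lo W H) =
      sq W - sq (up W H) := by
    clear hW hF
    induction W using Multiset.induction_on with
    | empty => simp [up_nil, hi, lo, sq_nil]
    | cons w W ih =>
      rw [up_sq_cons, sq_cons]
      unfold hi lo at ih ⊢
      by_cases h : H ≤ w
      · rw [Multiset.filter_cons_of_pos (p := fun w => H ≤ w) W h, Multiset.card_cons, Multiset.sum_cons,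
          Multiset.filter_cons_of_neg (p := fun w => w < H) W (by omega : ¬ w < H), Nat.cast_sub h,
          Nat.cast_add, Nat.cast_add, Nat.cast_one]
        linarith
      · rw [Multiset.filter_cons_of_neg (p := fun w => H ≤ w) W h, Nat.sub_eq_zero_of_le (by omega : w ≤ H),
          Multiset.filter_cons_of_pos (p := fun w => w < H) W (by omega : w < H), sq_cons, Nat.cast_zero]
        linarith
  linarith

theorem conc' (b ρ : ℤ) (W : Multiset ℕ) (k l m : ℕ) (hkl : k ≤ l) (hlm : l ≤ m) :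
    ((m : ℤ) - l) * lm b ρ W k + ((l : ℤ) - k) * lm b ρ W m ≤ ((m : ℤ) - k) * lm b ρ W l := by
  have key : ((m : ℤ) - k) * ((up W l).sum : ℤ) ≤ ((m : ℤ) - l) * ((up W k).sum : ℤ) +
      ((l : ℤ) - k) * ((up W m).sum : ℤ) := by
    induction W using Multiset.induction_on with
    | empty => simp [up_nil]
    | cons w W ih =>
      rw [up_sum_cons, up_sum_cons, up_sum_cons]
      have h1 : ((m : ℤ) - k) * ((w - l : ℕ) : ℤ) ≤ ((m : ℤ) - l) * ((w - k : ℕ) : ℤ) +
          ((l : ℤ) - k) * ((w - m : ℕ) : ℤ) := by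
        have a1 : (0 : ℤ) ≤ (m : ℤ) - l := by omega
        have a2 : (0 : ℤ) ≤ (l : ℤ) - k := by omega
        by_cases h : w ≤ l
        · rw [Nat.sub_eq_zero_of_le h]
          have : (0 : ℤ) ≤ ((m : ℤ) - l) * ((w - k : ℕ) : ℤ) + ((l : ℤ) - k) * ((w - m : ℕ) : ℤ) := by
            positivity
          simpa using this
        · have e1 : ((w - l : ℕ) : ℤ) = (w : ℤ) - l := by rw [Nat.cast_sub (by omega)]
          have e2 : ((w - k : ℕ) : ℤ) = (w : ℤ) - k := by rw [Nat.cast_sub (by omega)]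
          have e3 : (w : ℤ) - m ≤ ((w - m : ℕ) : ℤ) := by omega
          rw [e1, e2]
          have := mul_le_mul_of_nonneg_left e3 a2
          linarith
      rw [Nat.cast_add, Nat.cast_add, Nat.cast_add]
      linarith
  unfold lm
  nlinarith [key]

theorem trap' (b ρ : ℤ) (W : Multiset ℕ) (F : ℕ → ℝ) (k l : ℕ) (hkl : k ≤ l)
    (hF : ∀ j < l, F j - F (j + 1) = (lm b ρ W j : ℝ) + (lm b ρ W (j + 1) : ℝ)) :
    ((l : ℝ) - k) * ((lm b ρ W k : ℝ) + (lm b ρ W l : ℝ)) ≤ F k - F l := by
  rcases Nat.eq_or_lt_of_le hkl with h | h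
  · subst h; simp
  · have hn : (0 : ℝ) < (l : ℝ) - k := by
      have : (k : ℝ) < l := by exact_mod_cast h
      linarith
    have hc : ∀ j : ℕ, k ≤ j → j ≤ l → ((l : ℝ) - j) * (lm b ρ W k : ℝ) + ((j : ℝ) - k) * (lm b ρ W l : ℝ) ≤
        ((l : ℝ) - k) * (lm b ρ W j : ℝ) := by
      intro j h1 h2
      have := conc' b ρ W k j l h1 h2
      exact_mod_cast this
    have key : ∀ i : ℕ, k + i ≤ l → (2 * ((l : ℝ) - k) * i - (i : ℝ) ^ 2) * (lm b ρ W k : ℝ) +
        (i : ℝ) ^ 2 * (lm b ρ W l : ℝ) ≤ ((l : ℝ) - k) * (F k - F (k + i)) := by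
      intro i
      induction i with
      | zero => intro _; simp
      | succ i ih =>
        intro hi
        have h1 := ih (by omega)
        have h2 := hF (k + i) (by omega)
        have h3 := hc (k + i) (by omega) (by omega)
        have h4 := hc (k + i + 1) (by omega) (by omega)
        have h5 : ((l : ℝ) - k) * (F (k + i) - F (k + i + 1)) =
            ((l : ℝ) - k) * (lm b ρ W (k + i) : ℝ) + ((l : ℝ) - k) * (lm b ρ W (k + i + 1) : ℝ) := by
          rw [h2]; ring
        push_cast at h1 h3 h4 ⊢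
        rw [← add_assoc]
        linarith
    have h1 := key (l - k) (by omega)
    rw [Nat.cast_sub hkl, Nat.add_sub_cancel' hkl] at h1
    have h2 : ((l : ℝ) - k) * (((l : ℝ) - k) * ((lm b ρ W k : ℝ) + (lm b ρ W l : ℝ))) ≤
        ((l : ℝ) - k) * (F k - F l) := by linarith
    exact le_of_mul_le_mul_left h2 hn

/-- job ALG -/
theorem alg : S_Alg where
  up_up := up_up'
  up_zero := up_zero'
  lm_shift := fun B ρ W k l => by
    unfold lm
    rw [up_up', Nat.cast_add k l]
    ring
  lm_succ := fun B ρ W k => by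
    unfold lm
    rw [sum_succ W k, Nat.cast_add k 1, Nat.cast_add, Nat.cast_one]
    ring
  sq_succ := sq_succ'
  lm_lo := lm_lo'
  area := area'
  conc := conc'
  trap := trap'

end Pool.Agent.Q239.CH
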