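import Pool.Agent.H200C.Stm2
import Pool.Agent.Q53.WR.Div

/-! Project CH (helper200), job DIVN (helper239): dividing a list of units into two parts. -/

set_option autoImplicit false

namespace Pool.Agent.Q239.CH

open Finset Polynomial Pool.Agent.TH176.Nag Pool.Agent.TH603.Sur Pool.Agent.TH2.NU Pool.Agent.TH641.UM
open Pool.Agent.Y205.FW Pool.Agent.Y205.MD Pool.Agent.H200W Pool.Agent.H200P Pool.Agent.H200C

theorem divNS : DivNS := by
  intro h u α n0 n1 α1 α2 Q Q1 Q2 hn hu h0 hu1 hα hG1 hG2 hcut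
  have hn1 : n0 ≤ n1 ∧ n1 ≤ n1 := ⟨hn, le_refl _⟩
  refine ⟨by simpa using hcut n1 hn le_rfl 0 0 (hG1 n1 hn le_rfl).1 (hG2 n1 hn le_rfl).1, fun L hL hs => ?_⟩
  by_cases hle : (L.map Prod.snd).sum ≤ α1 n1
  · have := hcut n1 hn le_rfl (L.map Prod.fst).sum 0 ((hG1 n1 hn le_rfl).2 L hL hle) (hG2 n1 hn le_rfl).1
    simpa using this
  · push Not at hle
    obtain ⟨L1, L2, e, h1, h2⟩ := Pool.Agent.Q53.WR.split_le Prod.snd (u := u) (A := α1 n1) (by linarith) L
      (fun x hx => (hL x hx).2) hle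
    classical
    have hex : ∃ n, n0 ≤ n ∧ (L1.map Prod.snd).sum ≤ α1 n := ⟨n1, hn, h1⟩
    have hmin := Nat.find_spec hex
    have hle1 : Nat.find hex ≤ n1 := Nat.find_min' hex ⟨hn, h1⟩
    set n := Nat.find hex with hndef
    have hne : n ≠ n0 := by
      intro hh
      rw [hh] at hmin
      linarith [hmin.2]
    have hlt : n0 < n := lt_of_le_of_ne hmin.1 (Ne.symm hne)
    have hpred : α1 (n - 1) < (L1.map Prod.snd).sum := by
      by_contra hcon
      push Not at hcon
      exact Nat.find_min hex (m := n - 1) (by omega) ⟨by omega, hcon⟩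
    subst e
    rw [List.map_append, List.sum_append] at hs
    rw [List.map_append, List.sum_append]
    refine hcut n hmin.1 hle1 _ _ ((hG1 n hmin.1 hle1).2 L1 (fun x hx => hL x (List.mem_append_left _ hx))
      hmin.2) ((hG2 n hmin.1 hle1).2 L2 (fun x hx => hL x (List.mem_append_right _ hx)) ?_)
    have := hα (n - 1) (by omega) (by omega)
    rw [Nat.sub_add_cancel (by omega)] at this
    linarith

theorem divNE : DivNE := by
  intro h u α n0 n1 α1 α2 Q Q1 Q2 hn hu h0 hu1 hα0 hα hG1 hG2 hcut L hL hs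
  obtain ⟨L1, L2, e, h1, h2⟩ := Pool.Agent.Q53.WR.split_ge Prod.snd (u := u) (A := α1 n0) h0 hu L
    (fun x hx => (hL x hx).2) (by linarith)
  classical
  have hex : ∃ n, n0 ≤ n ∧ (L1.map Prod.snd).sum < α1 n := ⟨n1, hn, by linarith⟩
  have hmin := Nat.find_spec hex
  have hle1 : Nat.find hex ≤ n1 := Nat.find_min' hex ⟨hn, by linarith⟩
  set m := Nat.find hex with hmdef
  have hne : m ≠ n0 := by
    intro hh
    rw [hh] at hmin
    linarith [hmin.2]
  have hlt : n0 < m := lt_of_le_of_ne hmin.1 (Ne.symm hne)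
  have hpred : α1 (m - 1) ≤ (L1.map Prod.snd).sum := by
    by_contra hcon
    push Not at hcon
    exact Nat.find_min hex (m := m - 1) (by omega) ⟨by omega, hcon⟩
  subst e
  rw [List.map_append, List.sum_append] at hs
  rw [List.map_append, List.sum_append]
  have ha := hα (m - 1) (by omega) (by omega)
  rw [Nat.sub_add_cancel (by omega)] at ha
  refine hcut (m - 1) (by omega) (by omega) _ _ (hG1 (m - 1) (by omega) (by omega) L1
    (fun x hx => hL x (List.mem_append_left _ hx)) hpred) (hG2 (m - 1) (by omega) (by omega) L2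
    (fun x hx => hL x (List.mem_append_right _ hx)) ?_)
  linarith [hmin.2]

/-- job DIVN -/
theorem divN : S_DivN := ⟨divNS, divNE⟩

end Pool.Agent.Q239.CH
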