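import Pool.Agent.H200C.Stm2

/-! Project CH (helper200), job TOWER (helper239): a tower. -/

set_option autoImplicit false

namespace Pool.Agent.Q239.CH

open Finset Polynomial Pool.Agent.TH176.Nag Pool.Agent.TH603.Sur Pool.Agent.TH2.NU Pool.Agent.TH641.UM
open Pool.Agent.Y205.FW Pool.Agent.Y205.MD Pool.Agent.H200W Pool.Agent.H200P Pool.Agent.H200C

theorem lm_add_ge (hA : Alg) {B ρ : ℤ} {W : Multiset ℕ} (k n : ℕ) :
    lm B ρ W k - ρ * n ≤ lm B ρ W (k + n) := by
  induction n with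
  | zero => simp
  | succ n ih =>
    have := hA.lm_succ B ρ W (k + n)
    rw [← add_assoc, this]
    have h1 : (0 : ℤ) ≤ ((W.filter fun w => k + n < w).card : ℕ) := Int.natCast_nonneg _
    push_cast
    linarith

theorem lm_zero_ge (hA : Alg) {B ρ : ℤ} {W : Multiset ℕ} (k i : ℕ) (hi : i ≤ k) :
    lm B ρ W 0 + i * (((W.filter fun w => k < w).card : ℕ) - ρ) ≤ lm B ρ W i := by
  induction i with
  | zero => simp
  | succ i ih =>
    have h1 := ih (by omega)
    have h2 := hA.lm_succ B ρ W i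
    have h3 : (W.filter fun w => k < w).card ≤ (W.filter fun w => i < w).card := by
      apply Multiset.card_le_card
      apply Multiset.monotone_filter_right
      intro w hw
      exact lt_of_le_of_lt (by omega : i ≤ k) hw
    have h4 : (((W.filter fun w => k < w).card : ℕ) : ℤ) ≤ ((W.filter fun w => i < w).card : ℕ) := by
      exact_mod_cast h3
    rw [h2]
    push_cast
    linarith

theorem up_pos (W : Multiset ℕ) (k : ℕ) : ∀ w ∈ up W k, 0 < w := by
  intro w hw
  unfold up at hw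
  obtain ⟨a, ha, rfl⟩ := Multiset.mem_map.1 hw
  have := (Multiset.mem_filter.1 ha).2
  omega

theorem card_up (W : Multiset ℕ) (k : ℕ) : (up W k).card = (W.filter fun w => k < w).card := by
  unfold up
  rw [Multiset.card_map]

theorem g_le (W : Multiset ℕ) (k n : ℕ) :
    ((up W k).filter fun w => w ≤ n).card ≤ (W.filter fun w => k < w).card := by
  rw [← card_up]
  exact Multiset.card_le_card (Multiset.filter_le _ _)

theorem g_zero (W : Multiset ℕ) (n : ℕ) :
    ((up W 0).filter fun w => w ≤ n).card = (W.filter fun w => 0 < w ∧ w ≤ n).card := by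
  unfold up
  have e : ((W.filter fun w => 0 < w).map fun w => w - 0) = W.filter fun w => 0 < w := by simp
  rw [e, Multiset.filter_filter]
  congr 1
  apply Multiset.filter_congr
  intro x _
  exact and_comm

theorem tower_core (hA : Alg) {H0 hh : ℕ} {B ρ : ℤ} {W : Multiset ℕ} (P : ℕ → Prop) (hH0 : 1 ≤ H0)
    (hρ : 1 ≤ ρ) (hP : ∀ k, hh ≤ k → k ≤ hh + 128 * H0 → P k) (h1 : 66 * ρ * H0 ≤ lm B ρ W hh)
    (h2 : 2 ^ 12 * ρ * H0 * (1 + ((W.filter fun w => 0 < w ∧ w ≤ 128 * H0).card : ℕ)) ≤ lm B ρ W 0)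
    (hstep : ∀ k H0' : ℕ, H0 ≤ H0' → k < hh → k + 2 * H0' ≤ hh + 128 * H0 →
      ρ ≤ lm B ρ W k → 32 * ((((up W k).filter fun w => w ≤ 2 * H0').card : ℕ) + 1) * (H0' : ℤ) ≤ lm B ρ W k →
      (∀ n, H0' ≤ n → n ≤ 2 * H0' →
        32 * ((((up W k).filter fun w => w ≤ 2 * H0').card : ℕ) + 1) * (H0' : ℤ) ≤ lm B ρ W (k + n)) →
      (∀ n, H0' ≤ n → n ≤ 2 * H0' → P (k + n)) → P k) : P 0 := by
  have hH : (1 : ℤ) ≤ H0 := by exact_mod_cast hH0
  have hρH : ρ ≤ ρ * H0 := by nlinarith
  have hρH2 : (H0 : ℤ) ≤ ρ * H0 := by nlinarith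
  set g0 := (W.filter fun w => 0 < w ∧ w ≤ 128 * H0).card with hg0
  have hg0' : (0 : ℤ) ≤ (g0 : ℕ) := Int.natCast_nonneg _
  have h2' : 2 ^ 12 * (ρ * H0) + 2 ^ 12 * ((ρ * H0) * g0) ≤ lm B ρ W 0 := by linarith
  have hρHg : 0 ≤ (ρ * H0) * g0 := by positivity
  -- the lower bound before hh
  have hlow : ∀ k, k ≤ hh → 66 * (ρ * H0) ≤ lm B ρ W k := by
    intro k hk
    rcases Nat.eq_zero_or_pos hh with h | h
    · have : k = 0 := by omega
      subst this
      linarith
    · have hc := hA.conc B ρ W 0 k hh (Nat.zero_le _) hk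
      have hkz : (0 : ℤ) ≤ (hh : ℤ) - k := by omega
      have hk0 : (0 : ℤ) ≤ (k : ℤ) := by omega
      have h3 : 66 * (ρ * H0) ≤ lm B ρ W 0 := by linarith
      have h4 : 66 * (ρ * H0) ≤ lm B ρ W hh := by linarith
      have h5 := mul_le_mul_of_nonneg_left h3 hkz
      have h6 := mul_le_mul_of_nonneg_left h4 hk0
      push_cast at hc
      have h7 : (hh : ℤ) * (66 * (ρ * H0)) ≤ (hh : ℤ) * lm B ρ W k := by linarith
      exact le_of_mul_le_mul_left h7 (by omega)
  -- downward induction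
  have hind : ∀ d k : ℕ, 64 * H0 ≤ k → k ≤ hh + 128 * H0 → hh + 128 * H0 - k ≤ d → P k := by
    intro d
    induction d with
    | zero =>
      intro k _ hk2 hk3
      exact hP k (by omega) hk2
    | succ d ih =>
      intro k hk1 hk2 hk3
      by_cases hkh : hh ≤ k
      · exact hP k hkh hk2
      · push Not at hkh
        have hl := hlow k hkh.le
        have hgl := g_le W k (2 * H0)
        have hz := lm_zero_ge hA (B := B) (ρ := ρ) (W := W) k k le_rfl
        set nk := (W.filter fun w => k < w).card with hnk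
        set g := ((up W k).filter fun w => w ≤ 2 * H0).card with hg
        have hgz : (g : ℤ) ≤ nk := by exact_mod_cast hgl
        have hk64 : 64 * (H0 : ℤ) ≤ k := by exact_mod_cast hk1
        have hgH : (g : ℤ) * H0 ≤ nk * H0 := mul_le_mul_of_nonneg_right hgz (by omega)
        have hmain : 32 * ((g : ℤ) + 1) * (H0 : ℤ) ≤ lm B ρ W k - 2 * (ρ * H0) := by
          by_cases hc : 2 * ρ ≤ nk
          · have h3 : 32 * ((nk : ℤ) * H0) ≤ (k : ℤ) * ((nk : ℤ) - ρ) := by
              have h4 : (0 : ℤ) ≤ (nk : ℤ) - ρ := by linarith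
              have h5 : 64 * (H0 : ℤ) * ((nk : ℤ) - ρ) ≤ k * ((nk : ℤ) - ρ) :=
                mul_le_mul_of_nonneg_right hk64 h4
              have h6 : (0 : ℤ) ≤ (H0 : ℤ) * ((nk : ℤ) - 2 * ρ) := by
                apply mul_nonneg <;> linarith
              linarith
            linarith
          · push Not at hc
            have h3 : (nk : ℤ) + 1 ≤ 2 * ρ := by linarith
            have h4 : ((nk : ℤ) + 1) * H0 ≤ 2 * ρ * H0 := mul_le_mul_of_nonneg_right h3 (by omega)
            linarith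
        refine hstep k H0 le_rfl hkh (by omega) (by linarith) (by linarith) ?_ ?_
        · intro n _ hn2
          have h3 := lm_add_ge hA (B := B) (ρ := ρ) (W := W) k n
          have h4 : ρ * n ≤ 2 * (ρ * H0) := by
            have : (n : ℤ) ≤ 2 * H0 := by exact_mod_cast hn2
            nlinarith
          linarith
        · intro n hn1 hn2
          exact ih (k + n) (by omega) (by omega) (by omega)
  rcases Nat.eq_zero_or_pos hh with h | h
  · exact hP 0 (by omega) (by omega)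
  · have e := g_zero W (128 * H0)
    rw [show 128 * H0 = 2 * (64 * H0) by ring] at e
    have hh2 : ∀ n : ℕ, n ≤ 128 * H0 → 32 * ((g0 : ℤ) + 1) * ((64 * H0 : ℕ) : ℤ) ≤ lm B ρ W n := by
      intro n hn
      have h3 := lm_add_ge hA (B := B) (ρ := ρ) (W := W) 0 n
      rw [Nat.zero_add] at h3
      have h4 : ρ * n ≤ 128 * (ρ * H0) := by
        have : (n : ℤ) ≤ 128 * H0 := by exact_mod_cast hn
        nlinarith
      have h5 : (H0 : ℤ) * g0 ≤ (ρ * H0) * g0 := mul_le_mul_of_nonneg_right hρH2 hg0'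
      push_cast
      linarith
    have e' : ((up W 0).filter fun w => w ≤ 2 * (64 * H0)).card = g0 := by
      rw [e, hg0, show 2 * (64 * H0) = 128 * H0 by ring]
    refine hstep 0 (64 * H0) (by omega) h (by omega) (by linarith) ?_ ?_ ?_
    · rw [e']
      exact hh2 0 (by omega)
    · intro n _ hn2
      rw [e', Nat.zero_add]
      exact hh2 n (by omega)
    · intro n hn1 hn2
      rw [Nat.zero_add]
      exact hind _ n hn1 (by omega) le_rfl

theorem towerS (hS : StepS) (hA : Alg) : TowerS := by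
  intro h u δ H0 hh B ρ W F Q h1 h5 hu hu2 hδ hδ1 hρ hF hQ hL hL0 hcut
  have hH0' : (5 : ℝ) ≤ H0 := by linarith
  have hH0 : 1 ≤ H0 := by
    have : (0 : ℝ) < H0 := by linarith
    exact_mod_cast this
  have hδ0 : 0 < δ := by
    by_contra hcon
    push Not at hcon
    nlinarith
  refine tower_core hA (H0 := H0) (hh := hh) (B := B) (ρ := ρ) (W := W)
    (fun k => GS h u (Q k) ((1 - δ) * F k)) hH0 hρ hQ hL hL0 ?_
  intro k H0' hHH hk hk2 hρL hg hgn hP
  have hHR : (H0 : ℝ) ≤ H0' := by exact_mod_cast hHH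
  have hgz : (0 : ℤ) ≤ 32 * ((((up W k).filter fun w => w ≤ 2 * H0').card : ℕ) + 1) * (H0' : ℤ) := by
    positivity
  have := hS (h := h) (u := u) (δ := δ) (H0 := H0') (b := B - ρ * k) (ρ := ρ) (U := up W k)
    (fun n => F (k + n)) (Q k) (fun n => Q (k + n)) h1 (h5.trans hHR) hu
    (hu2.trans (by nlinarith)) (hδ.trans (mul_le_mul_of_nonneg_left hHR hδ0.le)) hδ1 (by linarith)
    (up_pos W k) (by rw [hA.lm_shift]; exact hρL) (by rw [hA.lm_shift]; exact hg)
    (fun n hn1 hn2 => by rw [hA.lm_shift]; exact hgn n hn1 hn2)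
    (fun j hj => by
      rw [hA.lm_shift, hA.lm_shift, ← add_assoc]
      exact hF (k + j) (by omega))
    (fun n hn1 hn2 => hP n hn1 hn2)
    (fun n hn1 hn2 M1 M2 hM1 hM2 => hcut k n (by omega) (by linarith) (hgz.trans (hgn n hn1 hn2)) M1 M2
      hM1 hM2)
  exact this

theorem towerE (hS : StepE) (hA : Alg) : TowerE := by
  intro h u δ H0 hh B ρ W F Q h1 h5 hu hu2 hδ hδ1 hρ hF hQ hL hL0 hcut
  have hH0' : (5 : ℝ) ≤ H0 := by linarith
  have hH0 : 1 ≤ H0 := by
    have : (0 : ℝ) < H0 := by linarith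
    exact_mod_cast this
  have hδ0 : 0 < δ := by
    by_contra hcon
    push Not at hcon
    nlinarith
  refine tower_core hA (H0 := H0) (hh := hh) (B := B) (ρ := ρ) (W := W)
    (fun k => 0 ≤ F k ∧ GE h u (Q k) ((1 + δ) * F k)) hH0 hρ hQ hL hL0 ?_
  intro k H0' hHH hk hk2 hρL hg hgn hP
  have hHR : (H0 : ℝ) ≤ H0' := by exact_mod_cast hHH
  have hgz : (0 : ℤ) ≤ 32 * ((((up W k).filter fun w => w ≤ 2 * H0').card : ℕ) + 1) * (H0' : ℤ) := by
    positivity
  constructor
  · have h3 := hA.trap B ρ W F k hh hk.le (fun j hj => hF j (by omega))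
    have h4 := (hQ hh le_rfl (by omega)).1
    have h5 : (0 : ℝ) ≤ (lm B ρ W k : ℝ) := by
      exact_mod_cast (show (0 : ℤ) ≤ lm B ρ W k by linarith)
    have h6 : (0 : ℝ) ≤ (lm B ρ W hh : ℝ) := by
      have : (0 : ℤ) ≤ 66 * ρ * H0 := by positivity
      exact_mod_cast this.trans hL
    have h7 : (0 : ℝ) ≤ (hh : ℝ) - k := by
      have : (k : ℝ) ≤ hh := by exact_mod_cast hk.le
      linarith
    have h8 : 0 ≤ ((hh : ℝ) - k) * ((lm B ρ W k : ℝ) + (lm B ρ W hh : ℝ)) :=
      mul_nonneg h7 (add_nonneg h5 h6)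
    linarith
  · have := hS (h := h) (u := u) (δ := δ) (H0 := H0') (b := B - ρ * k) (ρ := ρ) (U := up W k)
      (fun n => F (k + n)) (Q k) (fun n => Q (k + n)) h1 (h5.trans hHR) hu
      (hu2.trans (by nlinarith)) (hδ.trans (mul_le_mul_of_nonneg_left hHR hδ0.le)) hδ1 (by linarith)
      (up_pos W k) (by rw [hA.lm_shift]; exact hρL) (by rw [hA.lm_shift]; exact hg)
      (fun n hn1 hn2 => by rw [hA.lm_shift]; exact hgn n hn1 hn2)
      (fun j hj => by
        rw [hA.lm_shift, hA.lm_shift, ← add_assoc]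
        exact hF (k + j) (by omega))
      (fun n hn1 hn2 => hP n hn1 hn2)
      (fun n hn1 hn2 M1 M2 hM1 hM2 => hcut k n (by omega) (by linarith) (hgz.trans (hgn n hn1 hn2)) M1 M2
        hM1 hM2)
    exact this

/-- job TOWER -/
theorem tower : S_Tower := fun hS hE hA => ⟨towerS hS hA, towerE hE hA⟩

end Pool.Agent.Q239.CH
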