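import Pool.Agent.H200C.Stm2

/-! Project CH (helper200), job STEP (helper239): one step of a tower. -/

set_option autoImplicit false

namespace Pool.Agent.Q239.CH

open Finset Polynomial Pool.Agent.TH176.Nag Pool.Agent.TH603.Sur Pool.Agent.TH2.NU Pool.Agent.TH641.UM
open Pool.Agent.Y205.FW Pool.Agent.Y205.MD Pool.Agent.H200W Pool.Agent.H200P Pool.Agent.H200C

theorem GS_mono {h u : ℝ} {Q : Multiset ℕ → Prop} {α α' : ℝ} (hQ : GS h u Q α) (hα : α' ≤ α) :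
    GS h u Q α' := ⟨hQ.1, fun L hL hs => hQ.2 L hL (hs.trans hα)⟩

theorem GE_mono {h u : ℝ} {Q : Multiset ℕ → Prop} {α α' : ℝ} (hQ : GE h u Q α) (hα : α ≤ α') :
    GE h u Q α' := fun L hL hs => hQ L hL (hα.trans hs)

theorem lo_card_le {U : Multiset ℕ} {n H0 : ℕ} (hn : n ≤ 2 * H0) :
    (lo U n).card ≤ (U.filter fun w => w ≤ 2 * H0).card := by
  apply Multiset.card_le_card
  apply Multiset.monotone_filter_right
  intro w hw
  exact (show w < n from hw).le.trans hn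

theorem lo_sum_le (U : Multiset ℕ) (n : ℕ) : (lo U n).sum ≤ (lo U n).card * n := by
  have h := Multiset.sum_le_card_nsmul (lo U n) n (fun v hv => by
    unfold lo at hv
    exact (Multiset.mem_filter.1 hv).2.le)
  simpa using h

/-- the conditions for the strip -/
theorem strip_cond (hA : Alg) {H0 : ℕ} {b ρ : ℤ} {U : Multiset ℕ} (hU : ∀ w ∈ U, 0 < w)
    (h0 : 32 * (((U.filter fun w => w ≤ 2 * H0).card : ℕ) + 1) * (H0 : ℤ) ≤ lm b ρ U 0) {n : ℕ}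
    (hn : n ≤ 2 * H0)
    (h1 : 32 * (((U.filter fun w => w ≤ 2 * H0).card : ℕ) + 1) * (H0 : ℤ) ≤ lm b ρ U n) :
    (((lo U n).sum + 15 * ((lo U n).card + 1) * n : ℕ) : ℤ) ≤ b - ((hi U n).sum : ℕ) ∧
    (((lo U n).sum + 15 * ((lo U n).card + 1) * n : ℕ) : ℤ) ≤
      b - ((hi U n).sum : ℕ) - (ρ - ((hi U n).card : ℕ)) * n := by
  obtain ⟨e0, e1⟩ := hA.lm_lo b ρ U n hU
  have hc := lo_card_le (U := U) hn
  have hs := lo_sum_le U n
  generalize (U.filter fun w => w ≤ 2 * H0).card = g at *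
  generalize (lo U n).card = c at *
  generalize (lo U n).sum = s at *
  generalize (hi U n).sum = t at *
  have hm : (c + 1) * n ≤ (g + 1) * (2 * H0) := Nat.mul_le_mul (by omega) hn
  have hm' : ((c : ℤ) + 1) * n ≤ (g + 1) * (2 * H0) := by exact_mod_cast hm
  have hs' : (s : ℤ) ≤ (c : ℤ) * n := by exact_mod_cast hs
  have hn0 : (0 : ℤ) ≤ n := Int.natCast_nonneg n
  have hH0 : (0 : ℤ) ≤ H0 := Int.natCast_nonneg H0
  have hgH : (0 : ℤ) ≤ ((g : ℤ) + 1) * H0 := by positivity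
  constructor
  · push_cast
    nlinarith
  · push_cast
    nlinarith

theorem stepS (hD : DivNS) (hB : StripB) (hA : Alg) : StepS := by
  intro h u δ H0 b ρ U F Q Q2 hh hhH hu huH hδ hδ1 hρ hU hρL h0 hL hF hQ2 hcut
  have hH0 : (5 : ℝ) ≤ H0 := by linarith
  have hH1 : 1 ≤ H0 := by
    have : (0 : ℝ) < H0 := by linarith
    exact_mod_cast this
  have hδ0 : 0 < δ := by
    by_contra hcon
    push Not at hcon
    nlinarith
  set g := (U.filter fun w => w ≤ 2 * H0).card with hg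
  have hg0 : (0 : ℝ) ≤ g := Nat.cast_nonneg g
  have r0 : 32 * ((g : ℝ) + 1) * (H0 : ℝ) ≤ (lm b ρ U 0 : ℝ) := by exact_mod_cast h0
  have r1 : ∀ n, H0 ≤ n → n ≤ 2 * H0 → 32 * ((g : ℝ) + 1) * (H0 : ℝ) ≤ (lm b ρ U n : ℝ) := by
    intro n h1 h2
    exact_mod_cast hL n h1 h2
  have hgH : 0 ≤ (g : ℝ) * H0 := by positivity
  have htrap : ∀ k l : ℕ, k ≤ l → l ≤ 2 * H0 →
      ((l : ℝ) - k) * ((lm b ρ U k : ℝ) + (lm b ρ U l : ℝ)) ≤ F k - F l := by
    intro k l h1 h2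
    exact hA.trap b ρ U F k l h1 (fun j hj => hF j (by omega))
  have t01 := htrap 0 H0 (Nat.zero_le _) (by omega)
  have t12 := htrap H0 (2 * H0) (by omega) le_rfl
  have l1 := r1 H0 le_rfl (by omega)
  have l2 := r1 (2 * H0) (by omega) le_rfl
  refine hD (n0 := H0) (n1 := 2 * H0) (fun n => F 0 - F n - 4 * g * H0) (fun n => (1 - δ) * F n) Q
    (fun n M => SB (lo U n) M (St (b - ((hi U n).sum : ℕ)) (ρ - ((hi U n).card : ℕ)) n)) Q2
    (by omega) hu ?_ ?_ ?_ ?_ hQ2 hcut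
  · -- 0 ≤ α1 H0
    push_cast at t01
    have h3 : 64 * ((g : ℝ) + 1) * H0 * H0 ≤ F 0 - F H0 := by nlinarith
    have h4 : 4 * (g : ℝ) * H0 ≤ 64 * ((g : ℝ) + 1) * H0 * H0 := by nlinarith
    show 0 ≤ F 0 - F H0 - 4 * g * H0
    linarith
  · push_cast at t12
    show u ≤ (F 0 - F (2 * H0) - 4 * g * H0) - (F 0 - F H0 - 4 * g * H0)
    have h3 : 64 * ((g : ℝ) + 1) * H0 * H0 ≤ F H0 - F (2 * H0) := by nlinarith
    nlinarith
  · intro n h1 h2
    show (1 - δ) * F 0 ≤ (F 0 - F n - 4 * g * H0) + (1 - δ) * F (n + 1)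
    have t := htrap 0 (n + 1) (Nat.zero_le _) (by omega)
    have l3 := r1 (n + 1) (by omega) (by omega)
    have h4 := hF n (by omega)
    have h5 : (lm b ρ U n : ℝ) ≤ (lm b ρ U (n + 1) : ℝ) + ρ := by
      have := hA.lm_succ b ρ U n
      have h6 : lm b ρ U n ≤ lm b ρ U (n + 1) + ρ := by
        rw [this]
        have : (0 : ℤ) ≤ ((U.filter fun w => n < w).card : ℕ) := Int.natCast_nonneg _
        linarith
      exact_mod_cast h6
    have h6 : (ρ : ℝ) ≤ (lm b ρ U 0 : ℝ) := by exact_mod_cast hρL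
    push_cast at t
    have hn : (H0 : ℝ) ≤ n := by exact_mod_cast h1
    have h7 : 4 ≤ δ * ((n : ℝ) + 1) := by nlinarith
    have h8 : 0 ≤ (lm b ρ U 0 : ℝ) + (lm b ρ U (n + 1) : ℝ) := by nlinarith
    have h9 : 4 * ((lm b ρ U 0 : ℝ) + (lm b ρ U (n + 1) : ℝ)) ≤ δ * (F 0 - F (n + 1)) := by
      calc 4 * ((lm b ρ U 0 : ℝ) + (lm b ρ U (n + 1) : ℝ)) ≤
          (δ * ((n : ℝ) + 1)) * ((lm b ρ U 0 : ℝ) + (lm b ρ U (n + 1) : ℝ)) :=
            mul_le_mul_of_nonneg_right h7 h8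
        _ = δ * (((n : ℝ) + 1 - 0) * ((lm b ρ U 0 : ℝ) + (lm b ρ U (n + 1) : ℝ))) := by ring
        _ ≤ _ := mul_le_mul_of_nonneg_left t hδ0.le
    have h10 : 4 * (g : ℝ) * H0 ≤ (lm b ρ U 0 : ℝ) := by nlinarith
    have h11 : 0 ≤ (lm b ρ U (n + 1) : ℝ) := by nlinarith
    nlinarith
  · intro n h1 h2
    obtain ⟨c1, c2⟩ := strip_cond hA hU h0 h2 (hL n h1 h2)
    have hn : (H0 : ℝ) ≤ n := by exact_mod_cast h1
    obtain ⟨hB1, -⟩ := hB
    have hG := hB1 (h := h) (u := u) (b := b - ((hi U n).sum : ℤ)) (σ := ρ - ((hi U n).card : ℤ))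
      (H := n) (lo U n) hh (hhH.trans hn) hu (huH.trans (by nlinarith))
      (fun v hv => by
        unfold lo at hv
        exact (Multiset.mem_filter.1 hv).2.le) c1 c2
    refine GS_mono hG ?_
    have ha := hA.area b ρ U F n hU (fun k hk => hF k (by omega))
    have hc : ((lo U n).card : ℝ) ≤ g := by exact_mod_cast lo_card_le (U := U) h2
    have hn2 : (n : ℝ) ≤ 2 * H0 := by exact_mod_cast h2
    have h3 : ((lo U n).card : ℝ) * n ≤ g * (2 * H0) :=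
      mul_le_mul hc hn2 (Nat.cast_nonneg _) hg0
    show F 0 - F n - 4 * g * H0 ≤ _
    rw [Int.cast_sub, Int.cast_sub, Int.cast_natCast, Int.cast_natCast]
    linarith

theorem stepE (hD : DivNE) (hB : StripB) (hA : Alg) : StepE := by
  intro h u δ H0 b ρ U F Q Q2 hh hhH hu huH hδ hδ1 hρ hU hρL h0 hL hF hQ2 hcut
  have hH0 : (5 : ℝ) ≤ H0 := by linarith
  have hH1 : 1 ≤ H0 := by
    have : (0 : ℝ) < H0 := by linarith
    exact_mod_cast this
  have hδ0 : 0 < δ := by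
    by_contra hcon
    push Not at hcon
    nlinarith
  set g := (U.filter fun w => w ≤ 2 * H0).card with hg
  have hg0 : (0 : ℝ) ≤ g := Nat.cast_nonneg g
  have r0 : 32 * ((g : ℝ) + 1) * (H0 : ℝ) ≤ (lm b ρ U 0 : ℝ) := by exact_mod_cast h0
  have r1 : ∀ n, H0 ≤ n → n ≤ 2 * H0 → 32 * ((g : ℝ) + 1) * (H0 : ℝ) ≤ (lm b ρ U n : ℝ) := by
    intro n h1 h2
    exact_mod_cast hL n h1 h2
  have hgH : 0 ≤ (g : ℝ) * H0 := by positivity
  have htrap : ∀ k l : ℕ, k ≤ l → l ≤ 2 * H0 →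
      ((l : ℝ) - k) * ((lm b ρ U k : ℝ) + (lm b ρ U l : ℝ)) ≤ F k - F l := by
    intro k l h1 h2
    exact hA.trap b ρ U F k l h1 (fun j hj => hF j (by omega))
  have t01 := htrap 0 H0 (Nat.zero_le _) (by omega)
  have t12 := htrap H0 (2 * H0) (by omega) le_rfl
  have l1 := r1 H0 le_rfl (by omega)
  have l2 := r1 (2 * H0) (by omega) le_rfl
  have hδn : ∀ n, H0 ≤ n → n ≤ 2 * H0 →
      4 * ((lm b ρ U 0 : ℝ) + (lm b ρ U n : ℝ)) ≤ δ * (F 0 - F n) := by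
    intro n h1 h2
    have t := htrap 0 n (Nat.zero_le _) h2
    have l3 := r1 n h1 h2
    have hn : (H0 : ℝ) ≤ n := by exact_mod_cast h1
    have h7 : 4 ≤ δ * (n : ℝ) := by nlinarith
    have h8 : 0 ≤ (lm b ρ U 0 : ℝ) + (lm b ρ U n : ℝ) := by nlinarith
    calc 4 * ((lm b ρ U 0 : ℝ) + (lm b ρ U n : ℝ)) ≤
        (δ * (n : ℝ)) * ((lm b ρ U 0 : ℝ) + (lm b ρ U n : ℝ)) :=
          mul_le_mul_of_nonneg_right h7 h8
      _ = δ * (((n : ℝ) - (0 : ℕ)) * ((lm b ρ U 0 : ℝ) + (lm b ρ U n : ℝ))) := by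
          push_cast; ring
      _ ≤ _ := mul_le_mul_of_nonneg_left t hδ0.le
  refine hD (n0 := H0) (n1 := 2 * H0) (fun n => F 0 - F n + 4 * g * H0) (fun n => (1 + δ) * F n) Q
    (fun n M => EB (lo U n) M (St (b - ((hi U n).sum : ℕ)) (ρ - ((hi U n).card : ℕ)) n)) Q2
    (by omega) hu ?_ ?_ ?_ ?_ ?_ (fun n h1 h2 => (hQ2 n h1 h2).2) hcut
  · -- 0 ≤ α1 H0
    push_cast at t01
    have h3 : 64 * ((g : ℝ) + 1) * H0 * H0 ≤ F 0 - F H0 := by nlinarith
    have h4 : 0 ≤ 64 * ((g : ℝ) + 1) * H0 * H0 := by positivity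
    show 0 ≤ F 0 - F H0 + 4 * g * H0
    nlinarith
  · push_cast at t12
    show u < (F 0 - F (2 * H0) + 4 * g * H0) - (F 0 - F H0 + 4 * g * H0)
    have h3 : 64 * ((g : ℝ) + 1) * H0 * H0 ≤ F H0 - F (2 * H0) := by nlinarith
    nlinarith
  · show F 0 - F H0 + 4 * g * H0 ≤ (1 + δ) * F 0
    have h3 := (hQ2 H0 le_rfl (by omega)).1
    have h4 := hδn H0 le_rfl (by omega)
    have h10 : 4 * (g : ℝ) * H0 ≤ (lm b ρ U 0 : ℝ) := by nlinarith
    have h11 : 0 ≤ (lm b ρ U H0 : ℝ) := by nlinarith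
    have h12 : 0 ≤ (lm b ρ U 0 : ℝ) := by nlinarith
    nlinarith
  · intro n h1 h2
    show (F 0 - F (n + 1) + 4 * g * H0) + (1 + δ) * F n ≤ (1 + δ) * F 0
    have h3 := hδn n h1 (by omega)
    have h4 := hF n (by omega)
    have l3 := r1 n h1 (by omega)
    have l4 := r1 (n + 1) (by omega) (by omega)
    have hn : (H0 : ℝ) ≤ n := by exact_mod_cast h1
    have h12 : 0 ≤ (lm b ρ U 0 : ℝ) := by nlinarith
    have h13 : 0 ≤ (lm b ρ U n : ℝ) := by nlinarith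
    have h5 : (lm b ρ U (n + 1) : ℝ) ≤ 2 * (lm b ρ U n : ℝ) := by
      have h6 := hA.conc b ρ U 0 n (n + 1) (Nat.zero_le _) (by omega)
      have h7 : (((n + 1 : ℕ) : ℝ) - n) * (lm b ρ U 0 : ℝ) + ((n : ℝ) - (0 : ℕ)) * (lm b ρ U (n + 1) : ℝ) ≤
          (((n + 1 : ℕ) : ℝ) - (0 : ℕ)) * (lm b ρ U n : ℝ) := by exact_mod_cast h6
      push_cast at h7
      have h8 : (n : ℝ) * (lm b ρ U (n + 1) : ℝ) ≤ (n : ℝ) * (2 * (lm b ρ U n : ℝ)) := by nlinarith
      exact le_of_mul_le_mul_left h8 (by linarith)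
    have h10 : 4 * (g : ℝ) * H0 ≤ (lm b ρ U 0 : ℝ) := by nlinarith
    nlinarith
  · intro n h1 h2
    obtain ⟨c1, c2⟩ := strip_cond hA hU h0 h2 (hL n h1 h2)
    have hn : (H0 : ℝ) ≤ n := by exact_mod_cast h1
    obtain ⟨-, hB2⟩ := hB
    have hG := hB2 (h := h) (u := u) (b := b - ((hi U n).sum : ℤ)) (σ := ρ - ((hi U n).card : ℤ))
      (H := n) (lo U n) hh (hhH.trans hn) hu (huH.trans (by nlinarith))
      (fun v hv => by
        unfold lo at hv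
        exact (Multiset.mem_filter.1 hv).2.le) c1 c2
    refine GE_mono hG ?_
    have ha := hA.area b ρ U F n hU (fun k hk => hF k (by omega))
    have hc : ((lo U n).card : ℝ) ≤ g := by exact_mod_cast lo_card_le (U := U) h2
    have hn2 : (n : ℝ) ≤ 2 * H0 := by exact_mod_cast h2
    have h3 : ((lo U n).card : ℝ) * n ≤ g * (2 * H0) :=
      mul_le_mul hc hn2 (Nat.cast_nonneg _) hg0
    show _ ≤ F 0 - F n + 4 * g * H0
    rw [Int.cast_sub, Int.cast_sub, Int.cast_natCast, Int.cast_natCast]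
    linarith

/-- job STEP -/
theorem step : S_Step := fun hDS hDE hB hA => ⟨stepS hDS hB hA, stepE hDE hB hA⟩

end Pool.Agent.Q239.CH
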